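import Mathlib

open Cardinal Set Function

universe u

namespace Pool.Agent.Results.MP_6967ea_co.Attained

/-- `D` is an orientation of `G`: every arc is an edge, every edge gets exactly one direction. -/
def IsOrient {V : Type u} (G : SimpleGraph V) (D : V → V → Prop) : Prop :=
  (∀ a b, D a b → G.Adj a b) ∧ ∀ a b, G.Adj a b → (D a b ↔ ¬ D b a)

/-- `A` induces an acyclic subdigraph: no closed directed walk with all vertices in `A`. -/
def Acyc {V : Type u} (D : V → V → Prop) (A : Set V) : Prop :=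
  ∀ v, ¬ Relation.TransGen (fun a b => a ∈ A ∧ b ∈ A ∧ D a b) v v

/-- Dichromatic number: least number of colours of a colouring with acyclic classes. -/
noncomputable def dichi {V : Type u} (D : V → V → Prop) : Cardinal.{u} :=
  sInf {μ | ∃ (C : Type u) (c : V → C), #C = μ ∧ ∀ k, Acyc D (c ⁻¹' {k})}

/-- `V` carries a proper ideal containing the singletons that is closed under unions of fewer
than `κ` members and has no `κ` pairwise disjoint sets outside it. -/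
def SatIdeal (κ : Cardinal.{u}) (V : Type u) : Prop :=
  ∃ J : Set (Set V), Set.univ ∉ J ∧ (∀ v, {v} ∈ J) ∧ (∀ A B, A ⊆ B → B ∈ J → A ∈ J) ∧
    (∀ (C : Type u) (A : C → Set V), #C < κ → (∀ k, A k ∈ J) → (⋃ k, A k) ∈ J) ∧
    ∀ (C : Type u) (A : C → Set V), (∀ k, A k ∉ J) → Pairwise (Disjoint on A) → #C < κ

variable {V : Type u}

def Col (D : V → V → Prop) (X : Set V) (l : Cardinal.{u}) : Prop :=
  ∃ (C : Type u) (A : C → Set V), #C ≤ l ∧ (∀ k, Acyc D (A k)) ∧ X ⊆ ⋃ k, A k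

lemma tg_mono {r s : V → V → Prop} {a b : V} (hv : Relation.TransGen r a b)
    (h : ∀ a b, r a b → s a b) : Relation.TransGen s a b := by
  induction hv with
  | single x => exact .single (h _ _ x)
  | tail _ x ih => exact ih.tail (h _ _ x)

lemma Acyc.mono {D : V → V → Prop} {A B : Set V} (h : Acyc D B) (hAB : A ⊆ B) : Acyc D A :=
  fun v hv => h v (tg_mono hv fun _ _ x => ⟨hAB x.1, hAB x.2.1, x.2.2⟩)

lemma Col.mono {D : V → V → Prop} {X Y : Set V} {l m : Cardinal.{u}} (h : Col D Y l)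
    (hXY : X ⊆ Y) (hl : l ≤ m) : Col D X m := by
  obtain ⟨C, A, h1, h2, h3⟩ := h
  exact ⟨C, A, h1.trans hl, h2, hXY.trans h3⟩

lemma Col.iUnion {D : V → V → Prop} {C : Type u} {X : C → Set V} {f : C → Cardinal.{u}}
    (h : ∀ k, Col D (X k) (f k)) : Col D (⋃ k, X k) (sum f) := by
  choose E A h1 h2 h3 using h
  refine ⟨Σ k, E k, fun p => A p.1 p.2, ?_, fun p => h2 _ _, ?_⟩
  · rw [mk_sigma]; exact sum_le_sum _ _ h1
  · intro v hv
    obtain ⟨k, hk⟩ := mem_iUnion.1 hv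
    obtain ⟨e, he⟩ := mem_iUnion.1 (h3 k hk)
    exact mem_iUnion.2 ⟨⟨k, e⟩, he⟩

lemma Col.union {D : V → V → Prop} {X Y : Set V} {l m : Cardinal.{u}} (h : Col D X l)
    (h' : Col D Y m) : Col D (X ∪ Y) (l + m) := by
  obtain ⟨C, A, h1, h2, h3⟩ := h
  obtain ⟨C', A', h1', h2', h3'⟩ := h'
  refine ⟨C ⊕ C', Sum.elim A A', ?_, ?_, ?_⟩
  · simpa using add_le_add h1 h1'
  · rintro (k | k)
    · exact h2 k
    · exact h2' k
  · rintro v (hv | hv)
    · obtain ⟨e, he⟩ := mem_iUnion.1 (h3 hv)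
      exact mem_iUnion.2 ⟨Sum.inl e, he⟩
    · obtain ⟨e, he⟩ := mem_iUnion.1 (h3' hv)
      exact mem_iUnion.2 ⟨Sum.inr e, he⟩

lemma Acyc.col {D : V → V → Prop} {A : Set V} (h : Acyc D A) : Col D A 1 :=
  ⟨PUnit, fun _ => A, by simp, fun _ => h, fun v hv => mem_iUnion.2 ⟨PUnit.unit, hv⟩⟩

lemma acyc_single {G : SimpleGraph V} {D : V → V → Prop} (hD : IsOrient G D) (k : V) :
    Acyc D {k} := by
  intro v hv
  obtain ⟨w, hw, -⟩ := Relation.TransGen.head'_iff.1 hv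
  obtain ⟨h1, h2, h3⟩ := hw
  rw [mem_singleton_iff] at h1 h2
  subst h1; subst h2
  exact (hD.1 _ _ h3).ne rfl

lemma dichi_spec {G : SimpleGraph V} {D : V → V → Prop} (hD : IsOrient G D) :
    ∃ (C : Type u) (c : V → C), #C = dichi D ∧ ∀ k, Acyc D (c ⁻¹' {k}) := by
  have : {μ | ∃ (C : Type u) (c : V → C), #C = μ ∧ ∀ k, Acyc D (c ⁻¹' {k})}.Nonempty :=
    ⟨#V, V, id, rfl, fun k => acyc_single hD k⟩
  exact csInf_mem this

lemma dichi_le {D : V → V → Prop} {l : Cardinal.{u}} (h : Col D Set.univ l) : dichi D ≤ l := by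
  obtain ⟨C, A, h1, h2, h3⟩ := h
  have : ∀ v, ∃ k, v ∈ A k := fun v => mem_iUnion.1 (h3 (mem_univ v))
  choose c hc using this
  refine le_trans (csInf_le' ⟨C, c, rfl, fun k => (h2 k).mono ?_⟩) h1
  intro v hv
  have : c v = k := hv
  rw [← this]; exact hc v

lemma col_of_dichi {G : SimpleGraph V} {D : V → V → Prop} (hD : IsOrient G D) :
    Col D Set.univ (dichi D) := by
  obtain ⟨C, c, h1, h2⟩ := dichi_spec hD
  exact ⟨C, fun k => c ⁻¹' {k}, h1.le, h2, fun v _ => mem_iUnion.2 ⟨c v, rfl⟩⟩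

/-- Gluing orientations along a partition of the vertex set. -/
lemma glue {G : SimpleGraph V} {κ : Cardinal.{u}} {Q : Type u} (E : Q → V → V → Prop)
    (hE : ∀ q, IsOrient G (E q)) (hle : ∀ q, dichi (E q) ≤ κ) (p : V → Q)
    (hb : ∀ l < κ, ∃ q, ¬ Col (E q) (p ⁻¹' {q}) l) :
    ∃ D', IsOrient G D' ∧ dichi D' = κ := by
  classical
  letI : LinearOrder Q := linearOrderOfSTO WellOrderingRel
  let D' : V → V → Prop := fun a b => if p a = p b then E (p a) a b else G.Adj a b ∧ p a < p b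
  have ho : IsOrient G D' := by
    constructor
    · intro a b h
      by_cases hp : p a = p b
      · simp only [D', if_pos hp] at h; exact (hE _).1 _ _ h
      · simp only [D', if_neg hp] at h; exact h.1
    · intro a b h
      by_cases hp : p a = p b
      · simp only [D', if_pos hp, if_pos hp.symm]
        rw [← hp]; exact (hE _).2 _ _ h
      · simp only [D', if_neg hp, if_neg (Ne.symm hp), h, h.symm, true_and, not_lt]
        exact ⟨le_of_lt, fun h' => lt_of_le_of_ne h' hp⟩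
  refine ⟨D', ho, le_antisymm ?_ ?_⟩
  · have : ∀ q, ∃ c : V → κ.out, ∀ k, Acyc (E q) (c ⁻¹' {k}) := by
      intro q
      obtain ⟨C, c, h1, h2⟩ := dichi_spec (hE q)
      have : #C ≤ #κ.out := by rw [h1, mk_out]; exact hle q
      obtain ⟨e⟩ := (Cardinal.le_def _ _).1 this
      refine ⟨e ∘ c, fun k v hv => ?_⟩
      have hk : e (c v) = k := by
        obtain ⟨w, hw, -⟩ := Relation.TransGen.head'_iff.1 hv
        exact hw.1
      refine h2 (c v) v (tg_mono hv fun a b x => ⟨?_, ?_, x.2.2⟩)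
      · exact e.injective (x.1.trans hk.symm)
      · exact e.injective (x.2.1.trans hk.symm)
    choose c hc using this
    refine dichi_le ⟨κ.out, fun k => {v | c (p v) v = k}, by simp, fun k v hv => ?_,
      fun v _ => mem_iUnion.2 ⟨_, rfl⟩⟩
    have key : ∀ a b, Relation.TransGen (fun a b => a ∈ {v | c (p v) v = k} ∧
        b ∈ {v | c (p v) v = k} ∧ D' a b) a b → p a ≤ p b ∧ (p a = p b →
        Relation.TransGen (fun x y => x ∈ c (p a) ⁻¹' {k} ∧ y ∈ c (p a) ⁻¹' {k} ∧ E (p a) x y)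
          a b) := by
      have one : ∀ a b, (a ∈ {v | c (p v) v = k} ∧ b ∈ {v | c (p v) v = k} ∧ D' a b) →
          p a ≤ p b ∧ (p a = p b →
            (a ∈ c (p a) ⁻¹' {k} ∧ b ∈ c (p a) ⁻¹' {k} ∧ E (p a) a b)) := by
        rintro a b ⟨h1, h2, h3⟩
        by_cases hp : p a = p b
        · simp only [D', if_pos hp] at h3
          refine ⟨hp.le, fun _ => ⟨h1, ?_, h3⟩⟩
          rw [hp]; exact h2
        · simp only [D', if_neg hp] at h3
          exact ⟨h3.2.le, fun h => (hp h).elim⟩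
      intro a b h
      induction h with
      | single h => exact ⟨(one _ _ h).1, fun e => .single ((one _ _ h).2 e)⟩
      | tail _ h ih =>
        refine ⟨ih.1.trans (one _ _ h).1, fun e => ?_⟩
        have e1 := le_antisymm ih.1 (e ▸ (one _ _ h).1)
        refine (ih.2 e1).tail ?_
        rw [e1]; exact (one _ _ h).2 (e1.symm.trans e)
    exact hc (p v) k v ((key v v hv).2 rfl)
  · by_contra hlt
    obtain ⟨q, hq⟩ := hb _ (not_le.1 hlt)
    obtain ⟨C, A, h1, h2, h3⟩ := col_of_dichi ho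
    refine hq ⟨C, fun k => A k ∩ p ⁻¹' {q}, h1, fun k v hv => h2 k v (tg_mono hv ?_), ?_⟩
    · rintro a b ⟨⟨ha, ha'⟩, ⟨hb, hb'⟩, h⟩
      have ea : p a = q := ha'
      have eb : p b = q := hb'
      refine ⟨ha, hb, ?_⟩
      simp only [D', if_pos (ea.trans eb.symm)]
      rw [ea]; exact h
    · intro v hv
      obtain ⟨k, hk⟩ := mem_iUnion.1 (h3 (mem_univ v))
      exact mem_iUnion.2 ⟨k, hk, hv⟩

lemma glue' {G : SimpleGraph V} {κ : Cardinal.{u}} {ι : Type u} (D : ι → V → V → Prop)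
    (hD : ∀ i, IsOrient G (D i)) (hle : ∀ i, dichi (D i) ≤ κ) (i0 : ι) {T : Type u}
    (X : T → Set V) (hX : Pairwise (Disjoint on X)) (l : T → Cardinal.{u})
    (hl : ∀ m < κ, ∃ t, m ≤ l t) (h : ∀ t, ¬ ∀ i, Col (D i) (X t) (l t)) :
    ∃ D', IsOrient G D' ∧ dichi D' = κ := by
  classical
  have h' : ∀ t, ∃ i, ¬ Col (D i) (X t) (l t) := fun t => not_forall.1 (h t)
  choose j hj using h'
  let p : V → Option T := fun v => if h : ∃ t, v ∈ X t then some h.choose else none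
  refine glue (fun q : Option T => D (q.elim i0 j)) (fun q => hD _) (fun q => hle _) p ?_
  intro m hm
  obtain ⟨t, ht⟩ := hl m hm
  refine ⟨some t, fun hc => hj t (hc.mono ?_ ht)⟩
  intro v hv
  have hex : ∃ t, v ∈ X t := ⟨t, hv⟩
  show p v = some t
  simp only [p, dif_pos hex]
  congr 1
  by_contra hne
  exact disjoint_left.1 (hX hne) hex.choose_spec hv

lemma levels {κ : Cardinal.{u}} : ∃ (T : Type u) (l : T → Cardinal.{u}), #T = κ.ord.cof ∧
    (∀ t, l t < κ) ∧ ∀ L : Set T, κ.ord.cof ≤ #L → ∀ m < κ, ∃ t ∈ L, m ≤ l t := by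
  obtain ⟨s, hs, hs'⟩ := Ordinal.exists_ord_cof_eq (α := κ.ord.ToType)
  rw [Ordinal.cof_toType] at hs'
  have hc : Cardinal.mk s = κ.ord.cof := by
    have := congrArg Ordinal.card hs'
    simpa using this
  refine ⟨s, fun t => #(Iio (t : κ.ord.ToType)), hc, fun t => ?_, fun L hL m hm => ?_⟩
  · simpa using mk_Iio_lt (t : κ.ord.ToType) (by simp)
  · obtain ⟨a, ha⟩ : ∃ a : κ.ord.ToType, m ≤ #(Iio a) := by
      have h1 : m.ord < Ordinal.type (α := κ.ord.ToType) (· < ·) := by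
        simpa using hm
      obtain ⟨a, ha⟩ := Ordinal.typein_surj _ h1
      refine ⟨a, le_of_eq ?_⟩
      have := congrArg Ordinal.card ha
      rw [card_ord] at this
      exact this.symm
    obtain ⟨b, hb, hab⟩ := hs a
    by_contra hno
    push Not at hno
    have hsub : L ⊆ Iio ⟨b, hb⟩ := by
      intro t ht
      by_contra hge
      have h1 : b ≤ t := not_lt.1 hge
      exact absurd (ha.trans (mk_le_mk_of_subset (Iio_subset_Iio (hab.trans h1))))
        (not_le.2 (hno t ht))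
    have := mk_Iio_lt (⟨b, hb⟩ : s) (by rw [hc, hs'])
    exact absurd (hL.trans (mk_le_mk_of_subset hsub)) (not_le.2 (hc ▸ this))

section main

variable {G : SimpleGraph V} {κ : Cardinal.{u}} {ι : Type u} {D : ι → V → V → Prop}

/-- small sets -/
def Nul (D : ι → V → V → Prop) (κ : Cardinal.{u}) (X : Set V) : Prop :=
  ∃ l < κ, ∀ i, Col (D i) X l

lemma Nul.mono {X Y : Set V} (h : Nul D κ Y) (hXY : X ⊆ Y) : Nul D κ X := by
  obtain ⟨l, hl, h⟩ := h
  exact ⟨l, hl, fun i => (h i).mono hXY le_rfl⟩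

lemma Nul.union (hκ : ℵ₀ ≤ κ) {X Y : Set V} (h : Nul D κ X) (h' : Nul D κ Y) :
    Nul D κ (X ∪ Y) := by
  obtain ⟨l, hl, h⟩ := h
  obtain ⟨m, hm, h'⟩ := h'
  exact ⟨l + m, add_lt_of_lt hκ hl hm, fun i => (h i).union (h' i)⟩

lemma nul_iUnion_cof (hκ : ℵ₀ ≤ κ) {C : Type u} {A : C → Set V} (hC : #C < κ.ord.cof)
    (h : ∀ k, Nul D κ (A k)) : Nul D κ (⋃ k, A k) := by
  choose f hf h using h
  refine ⟨sum f, (sum_le_mk_mul_iSup f).trans_lt (mul_lt_of_lt hκ
    (hC.trans_le (Ordinal.cof_ord_le κ)) (iSup_lt_of_lt_cof_ord hC hf)), fun i => ?_⟩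
  exact Col.iUnion fun k => h k i

lemma nul_iUnion_star (hκ : ℵ₀ ≤ κ) {R : Set V} {l : Cardinal.{u}} (hl : l < κ)
    (hs : ∀ X ⊆ R, Nul D κ X → ∀ i, Col (D i) X l) {C : Type u} {A : C → Set V} (hC : #C < κ)
    (hA : ∀ k, A k ⊆ R) (h : ∀ k, Nul D κ (A k)) : Nul D κ (⋃ k, A k) := by
  refine ⟨sum fun _ : C => l, ?_, fun i => Col.iUnion fun k => hs _ (hA k) (h k) i⟩
  rw [sum_const']
  exact mul_lt_of_lt hκ hC hl

lemma step3 (hκ : ℵ₀ ≤ κ) (hD : ∀ i, IsOrient G (D i)) (hlt : ∀ i, dichi (D i) < κ)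
    {R : Set V} {l : Cardinal.{u}} (hl : l < κ)
    (hs : ∀ X ⊆ R, Nul D κ X → ∀ i, Col (D i) X l) {s : Cardinal.{u}} (hsκ : s < κ)
    (hsat : ∀ (C : Type u) (A : C → Set V), (∀ k, A k ⊆ R) → (∀ k, ¬ Nul D κ (A k)) →
      Pairwise (Disjoint on A) → #C ≤ s) : Nul D κ R := by
  refine ⟨l + s, add_lt_of_lt hκ hl hsκ, fun i => ?_⟩
  obtain ⟨C, c, h1, h2⟩ := dichi_spec (hD i)
  let P : Set C := {k | ¬ Nul D κ (R ∩ c ⁻¹' {k})}
  have hP : #P ≤ s := by
    refine hsat P (fun k => R ∩ c ⁻¹' {k.1}) (fun k => inter_subset_left) (fun k => k.2) ?_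
    intro a b hab
    refine disjoint_left.2 fun v hv hv' => hab (Subtype.ext ?_)
    exact (hv.2 : c v = a).symm.trans hv'.2
  have hN : Nul D κ (⋃ k : (Pᶜ : Set C), R ∩ c ⁻¹' {k.1}) :=
    nul_iUnion_star hκ hl hs ((mk_set_le _).trans_lt (h1 ▸ hlt i)) (fun k => inter_subset_left)
      fun k => not_not.1 k.2
  have h3 := hs _ (iUnion_subset fun k => inter_subset_left) hN i
  have h4 : Col (D i) (⋃ k : P, c ⁻¹' {k.1}) s :=
    ⟨P, fun k => c ⁻¹' {k.1}, hP, fun k => h2 _, subset_rfl⟩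
  refine (h3.union h4).mono (fun v hv => ?_) le_rfl
  by_cases hc : c v ∈ P
  · exact Or.inr (mem_iUnion.2 ⟨⟨c v, hc⟩, rfl⟩)
  · exact Or.inl (mem_iUnion.2 ⟨⟨c v, hc⟩, hv, rfl⟩)

lemma step1 (hκ : ℵ₀ ≤ κ) (hD : ∀ i, IsOrient G (D i)) (hle : ∀ i, dichi (D i) ≤ κ) (i0 : ι)
    (hV : ¬ Nul D κ Set.univ) (hno : ¬ ∃ D', IsOrient G D' ∧ dichi D' = κ) :
    ∃ (R : Set V) (l : Cardinal.{u}), l < κ ∧ ¬ Nul D κ R ∧
      (∀ X ⊆ R, Nul D κ X → ∀ i, Col (D i) X l) ∧
      ∀ (C : Type u) (A : C → Set V), (∀ k, ¬ Nul D κ (A k)) → Pairwise (Disjoint on A) →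
        #C < κ.ord.cof := by
  obtain ⟨T, l, hT, hl, hL⟩ := levels (κ := κ)
  obtain ⟨M, hM⟩ := zorn_subset {M : Set (T × Set V) |
      (∀ p ∈ M, Nul D κ p.2 ∧ ¬ ∀ i, Col (D i) p.2 (l p.1)) ∧
      M.Pairwise fun p q => p.1 ≠ q.1 ∧ Disjoint p.2 q.2} (by
    intro c hc hch
    refine ⟨⋃₀ c, ⟨?_, ?_⟩, fun s hs => subset_sUnion_of_mem hs⟩
    · rintro p ⟨s, hs, hp⟩
      exact (hc hs).1 p hp
    · rintro p ⟨s, hs, hp⟩ q ⟨t, ht, hq⟩ hpq
      rcases hch.total hs ht with h | h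
      · exact (hc ht).2 (h hp) hq hpq
      · exact (hc hs).2 hp (h hq) hpq)
  obtain ⟨hM1, hM2⟩ := hM.1
  have hcard : #M < κ.ord.cof := by
    by_contra hge
    have hinj : InjOn Prod.fst M := fun p hp q hq e => by
      by_contra hne
      exact (hM2 hp hq hne).1 e
    refine hno (glue' D hD hle i0 (fun p : M => p.1.2) ?_ (fun p => l p.1.1) ?_
      fun p => (hM1 _ p.2).2)
    · intro p q hpq
      exact (hM2 p.2 q.2 fun e => hpq (Subtype.ext e)).2
    · intro m hm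
      obtain ⟨t, ⟨p, hp, rfl⟩, ht⟩ := hL (Prod.fst '' M)
        (by rw [mk_image_eq_of_injOn _ _ hinj]; exact not_lt.1 hge) m hm
      exact ⟨⟨p, hp⟩, ht⟩
  obtain ⟨t, ht⟩ : ∃ t, t ∉ Prod.fst '' M := by
    by_contra h
    push Not at h
    have : #T ≤ #M := by
      rw [← mk_univ]
      exact (mk_le_mk_of_subset fun t _ => h t).trans mk_image_le
    exact absurd (hT ▸ this) (not_le.2 hcard)
  have hU : Nul D κ (⋃ p : M, p.1.2) := nul_iUnion_cof hκ hcard fun p => (hM1 _ p.2).1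
  refine ⟨(⋃ p : M, p.1.2)ᶜ, l t, hl t, fun h => hV ((hU.union hκ h).mono (by rw [union_compl_self])), ?_, ?_⟩
  · intro X hX hN
    by_contra hc
    have hdis : ∀ p ∈ M, Disjoint X p.2 := fun p hp =>
      disjoint_left.2 fun v hv hv' => hX hv (mem_iUnion.2 ⟨⟨p, hp⟩, hv'⟩)
    have hmem : (t, X) ∈ M := by
      refine hM.2 (y := insert (t, X) M) ⟨?_, ?_⟩ (subset_insert _ _) (mem_insert _ _)
      · rintro p (rfl | hp)
        · exact ⟨hN, hc⟩
        · exact hM1 p hp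
      · refine hM2.insert fun q hq _ => ⟨⟨fun e => ht ⟨q, hq, e.symm⟩, hdis q hq⟩,
          fun e => ht ⟨q, hq, e⟩, (hdis q hq).symm⟩
    exact ht ⟨_, hmem, rfl⟩
  · intro C A hA hdis
    by_contra hge
    obtain ⟨e⟩ := (Cardinal.le_def T C).1 (hT ▸ not_lt.1 hge)
    refine hno (glue' D hD hle i0 (fun t => A (e t)) (fun a b hab => hdis (e.injective.ne hab)) l
      (fun m hm => ?_) fun t h => hA _ ⟨_, hl t, h⟩)
    obtain ⟨t, -, ht⟩ := hL Set.univ (by rw [mk_univ, hT]) m hm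
    exact ⟨t, ht⟩

lemma atom (hκ : ℵ₀ ≤ κ) {R : Set V} (hR : ¬ Nul D κ R)
    (hsat : ∀ (C : Type u) (A : C → Set V), (∀ k, ¬ Nul D κ (A k)) → Pairwise (Disjoint on A) →
      #C < ℵ₀) : ∃ S ⊆ R, ¬ Nul D κ S ∧ ∀ A ⊆ S, ∀ B ⊆ S, ¬ Nul D κ A → ¬ Nul D κ B →
        ¬ Disjoint A B := by
  by_contra h
  push Not at h
  have h' : ∀ S : {S : Set V // S ⊆ R ∧ ¬ Nul D κ S}, ∃ A : Set V,
      ∃ B : {S : Set V // S ⊆ R ∧ ¬ Nul D κ S}, A ⊆ S.1 ∧ B.1 ⊆ S.1 ∧ ¬ Nul D κ A ∧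
        Disjoint A B.1 := by
    rintro ⟨S, h1, h2⟩
    obtain ⟨A, hA, B, hB, h3, h4, h5⟩ := h S h1 h2
    exact ⟨A, ⟨B, hB.trans h1, h4⟩, hA, hB, h3, h5⟩
  choose f g h1 h2 h3 h4 using h'
  let S : ℕ → {S : Set V // S ⊆ R ∧ ¬ Nul D κ S} := fun n => g^[n] ⟨R, subset_rfl, hR⟩
  have hS : ∀ n, S (n + 1) = g (S n) := fun n => Function.iterate_succ_apply' _ _ _
  have hanti : Antitone fun n => (S n).1 :=
    antitone_nat_of_succ_le fun n => by rw [hS]; exact h2 _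
  have hd : ∀ m n, m < n → Disjoint (f (S m)) (f (S n)) := fun m n hmn =>
    (h4 (S m)).mono_right ((h1 _).trans (by rw [← hS]; exact hanti hmn))
  have := hsat (ULift ℕ) (fun n => f (S n.down)) (fun n => h3 _) (by
    intro a b hab
    rcases lt_or_gt_of_ne (fun e => hab (ULift.ext _ _ e) : a.down ≠ b.down) with h | h
    · exact hd _ _ h
    · exact (hd _ _ h).symm)
  simp at this

end main

theorem result (V : Type u) (G : SimpleGraph V) (κ : Cardinal.{u}) (hκ : ℵ₀ ≤ κ) (ι : Type u)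
    (D : ι → V → V → Prop) (hD : ∀ i, IsOrient G (D i)) (hs : ⨆ i, dichi (D i) = κ) :
    (∃ D', IsOrient G D' ∧ dichi D' = κ) ∨
      (ℵ₀ < κ ∧ κ.IsRegular ∧ Order.IsSuccLimit κ ∧ SatIdeal κ V) := by
  by_cases hno : ∃ D', IsOrient G D' ∧ dichi D' = κ
  · exact Or.inl hno
  right
  have hle : ∀ i, dichi (D i) ≤ κ := fun i => hs ▸ le_ciSup (bddAbove_range _) i
  have hlt : ∀ i, dichi (D i) < κ := fun i => lt_of_le_of_ne (hle i) fun e => hno ⟨_, hD i, e⟩
  have hne : Nonempty ι := by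
    by_contra h
    rw [not_nonempty_iff] at h
    rw [iSup_of_empty', csSup_empty] at hs
    rw [← hs] at hκ
    exact absurd hκ (not_le.2 aleph0_pos)
  obtain ⟨i0⟩ := hne
  have hub : ∀ l < κ, ¬ ∀ i, dichi (D i) ≤ l := fun l hl h =>
    absurd (hs ▸ ciSup_le' h) (not_le.2 hl)
  have hV : ¬ Nul D κ Set.univ := fun ⟨l, hl, h⟩ => hub l hl fun i => dichi_le (h i)
  obtain ⟨R, l, hl, hR, hstar, hsat⟩ := step1 hκ hD hle i0 hV hno
  have hreg : κ.IsRegular := by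
    refine ⟨hκ, not_lt.1 fun h => hR ?_⟩
    exact step3 hκ hD hlt hl hstar h fun C A _ h2 h3 => (hsat C A h2 h3).le
  rw [hreg.cof_ord] at hsat
  refine ⟨lt_of_le_of_ne hκ fun e => ?_, hreg, ?_, {X | Nul D κ (X ∩ R)}, ?_, ?_, ?_, ?_, ?_⟩
  · obtain ⟨S, h1, h2, h3⟩ := atom hκ hR (e ▸ hsat)
    refine h2 (step3 hκ hD hlt hl (fun X hX => hstar X (hX.trans h1)) (s := 1)
      (one_lt_aleph0.trans_le hκ) fun C A hA hN hd => ?_)
    rw [le_one_iff_subsingleton]
    refine ⟨fun a b => ?_⟩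
    by_contra hab
    exact h3 _ (hA a) _ (hA b) (hN a) (hN b) (hd hab)
  · refine ⟨fun h => ?_, fun m hm => ?_⟩
    · exact absurd (h (zero_le : (0 : Cardinal.{u}) ≤ κ)) (not_le.2 (aleph0_pos.trans_le hκ))
    · exact hub m hm.1 fun i => not_lt.1 fun h => hm.2 h (hlt i)
  · simpa using hR
  · intro v
    exact ⟨1, one_lt_aleph0.trans_le hκ, fun i =>
      (acyc_single (hD i) v).col.mono inter_subset_left le_rfl⟩
  · intro A B hAB hB
    exact Nul.mono hB (inter_subset_inter_left _ hAB)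
  · intro C A hC hA
    show Nul D κ _
    rw [iUnion_inter]
    exact nul_iUnion_star hκ hl hstar hC (fun k => inter_subset_right) hA
  · intro C A hA hd
    exact hsat C (fun k => A k ∩ R) hA fun a b hab =>
      (hd hab).mono inter_subset_left inter_subset_left

end Pool.Agent.Results.MP_6967ea_co.Attained
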